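import Pool.Agent.Helper99.SZ.Stmts3
import Pool.Agent.Helper99.BK.Stmts

set_option autoImplicit false

/-! (PNA) a polynomial vanishing on the points of small size, with the archimedean estimate -/

namespace Pool.Helper99.SZ

open NumberField

/-- the value of the exponential at a point -/
theorem pna_exp {L : Type} [Field L] [NumberField L] (n : ℕ) (φ : L →+* ℂ) (g0 : L) (g : Fin n → L)
    (c : Fin n → ℝ) (ω lam0 : ℂ) (h0 : Complex.exp lam0 = φ g0)
    (h1 : ∀ i, Complex.exp ((c i : ℂ) * ω) = φ (g i)) (a : ℤ × (Fin n → ℤ)) :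
    Complex.exp (((∑ i, c i * (a.2 i : ℝ) : ℝ) : ℂ) * ω + ((a.1 : ℤ) : ℂ) * lam0) =
      φ (g0 ^ a.1 * ∏ i, g i ^ (a.2 i)) := by
  have e1 : ((∑ i, c i * (a.2 i : ℝ) : ℝ) : ℂ) * ω = ∑ i, ((a.2 i : ℤ) : ℂ) * ((c i : ℂ) * ω) := by
    push_cast
    rw [Finset.sum_mul]
    refine Finset.sum_congr rfl fun i _ => ?_
    ring
  rw [e1, Complex.exp_add, Complex.exp_sum, Complex.exp_int_mul, h0, map_mul, map_zpow₀, map_prod,
    mul_comm]
  congr 1
  refine Finset.prod_congr rfl fun i _ => ?_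
  rw [Complex.exp_int_mul, h1, map_zpow₀]

/-- bound for a monomial -/
theorem pna_mono (v K : ℕ) (k : Sx v K) (x : Fin v → ℝ) (B : ℝ) (hB : 1 ≤ B) (h0 : ∀ i, 0 ≤ x i)
    (h : ∀ i, x i ≤ B) : ∏ i, x i ^ (k.1 i : ℕ) ≤ B ^ K := by
  calc ∏ i, x i ^ (k.1 i : ℕ) ≤ ∏ i, B ^ (k.1 i : ℕ) :=
        Finset.prod_le_prod (fun i _ => pow_nonneg (h0 i) _)
          (fun i _ => pow_le_pow_left₀ (h0 i) (h i) _)
    _ = B ^ (∑ i, (k.1 i : ℕ)) := Finset.prod_pow_eq_pow_sum _ _ _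
    _ ≤ B ^ K := pow_le_pow_right₀ hB k.2

theorem pna_card (v K Lc : ℕ) :
    ((Fintype.card (Sx v K × Fin Lc) : ℕ) : ℝ) ≤ Real.exp ((v : ℝ) * K + Lc) := by
  have h1 : Fintype.card (Sx v K × Fin Lc) ≤ (K + 1) ^ v * Lc := by
    rw [Fintype.card_prod, Fintype.card_fin]
    refine Nat.mul_le_mul_right _ ?_
    have h2 := Fintype.card_subtype_le (fun k : Fin v → Fin (K + 1) => ∑ i, (k i : ℕ) ≤ K)
    have h3 : Fintype.card (Fin v → Fin (K + 1)) = (K + 1) ^ v := by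
      rw [Fintype.card_fun, Fintype.card_fin, Fintype.card_fin]
    rw [h3] at h2
    exact h2
  have h4 : ((Fintype.card (Sx v K × Fin Lc) : ℕ) : ℝ) ≤ ((K : ℝ) + 1) ^ v * Lc := by
    exact_mod_cast h1
  refine h4.trans ?_
  rw [Real.exp_add, mul_comm (v : ℝ) K]
  have h5 : (K : ℝ) + 1 ≤ Real.exp K := Real.add_one_le_exp _
  have h6 : ((K : ℝ) + 1) ^ v ≤ Real.exp ((K : ℝ) * v) := by
    rw [mul_comm, Real.exp_nat_mul]
    exact pow_le_pow_left₀ (by positivity) h5 _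
  have h7 : (Lc : ℝ) ≤ Real.exp Lc := by
    have := Real.add_one_le_exp (Lc : ℝ)
    linarith
  exact mul_le_mul h6 h7 (by positivity) (Real.exp_pos _).le

/-- the numerical contradiction -/
theorem pna_num (n D v K Lc t N : ℕ) (G U ℓ : ℝ) (hD : 1 ≤ D) (hv : v ≤ n) (hv1 : 1 ≤ v) (hG : 1 ≤ G)
    (hU : 1 ≤ U) (hℓ : 1 ≤ ℓ) (hN : 1 ≤ N) (hK : 1 ≤ K) (hL : 1 ≤ Lc)
    (hKG : 4096 * ((n : ℝ) + 1) * D * U ≤ K * G) (hLG : 4096 * ((n : ℝ) + 1) ^ 2 * D * ℓ ≤ Lc * G)
    (ht : (N : ℝ) * Lc * K < 32 * v * t)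
    (h : G * t ≤ N * (1 + (D + 1) * ((v : ℝ) * K + Lc) + 2 * K * v + (D + 1) * (K * ℓ) + 2 * D * (Lc * U))) :
    False := by
  have hN' : (1 : ℝ) ≤ N := by exact_mod_cast hN
  have hD' : (1 : ℝ) ≤ D := by exact_mod_cast hD
  have hK' : (1 : ℝ) ≤ K := by exact_mod_cast hK
  have hL' : (1 : ℝ) ≤ Lc := by exact_mod_cast hL
  have hv' : (v : ℝ) ≤ (n : ℝ) + 1 := by
    have : (v : ℝ) ≤ n := by exact_mod_cast hv
    linarith
  have hv0 : (1 : ℝ) ≤ v := by exact_mod_cast hv1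
  obtain ⟨m, hm⟩ : ∃ m : ℝ, m = (n : ℝ) + 1 := ⟨_, rfl⟩
  rw [← hm] at hKG hLG hv'
  have hm1 : 1 ≤ m := hv0.trans hv'
  obtain ⟨X, hX⟩ : ∃ X : ℝ, X = K * Lc * G := ⟨_, rfl⟩
  have hX0 : 0 < X := by rw [hX]; positivity
  -- N X < 32 v G t
  have h1 : (N : ℝ) * X < 32 * v * (G * t) := by
    have := mul_lt_mul_of_pos_right ht (show (0 : ℝ) < G by linarith)
    rw [hX]
    calc (N : ℝ) * (K * Lc * G) = (N : ℝ) * Lc * K * G := by ring
      _ < 32 * v * t * G := this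
      _ = 32 * v * (G * t) := by ring
  obtain ⟨E, hE⟩ : ∃ E : ℝ, E = 1 + (D + 1) * ((v : ℝ) * K + Lc) + 2 * K * v + (D + 1) * (K * ℓ) +
    2 * D * (Lc * U) := ⟨_, rfl⟩
  rw [← hE] at h
  have hE0 : 0 ≤ E := by rw [hE]; positivity
  have h2 : (N : ℝ) * X < N * (32 * m * E) := by
    calc (N : ℝ) * X < 32 * v * (G * t) := h1
      _ ≤ 32 * v * (N * E) := mul_le_mul_of_nonneg_left h (by positivity)
      _ ≤ 32 * m * (N * E) := mul_le_mul_of_nonneg_right (by linarith) (by positivity)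
      _ = N * (32 * m * E) := by ring
  have h3 : X < 32 * m * E := lt_of_mul_lt_mul_left h2 (by positivity)
  -- the basic bounds
  have b1 : 4096 * m * D * (Lc * U) ≤ X := by
    have := mul_le_mul_of_nonneg_right hKG (show (0 : ℝ) ≤ Lc by positivity)
    rw [hX]
    linarith
  have b2 : 4096 * m ^ 2 * D * (K * ℓ) ≤ X := by
    have := mul_le_mul_of_nonneg_right hLG (show (0 : ℝ) ≤ K by positivity)
    rw [hX]
    linarith
  have c1 : m * D * (Lc * 1) ≤ m * D * (Lc * U) :=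
    mul_le_mul_of_nonneg_left (mul_le_mul_of_nonneg_left hU (by positivity)) (by positivity)
  have c2 : m ^ 2 * D * (K * 1) ≤ m ^ 2 * D * (K * ℓ) :=
    mul_le_mul_of_nonneg_left (mul_le_mul_of_nonneg_left hℓ (by positivity)) (by positivity)
  have c3 : m * D * (K * ℓ) ≤ m ^ 2 * D * (K * ℓ) := by
    have : m * (D * (K * ℓ)) ≤ m ^ 2 * (D * (K * ℓ)) :=
      mul_le_mul_of_nonneg_right (by nlinarith) (by positivity)
    linarith
  have c4 : m * 1 ≤ m * (D * Lc) :=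
    mul_le_mul_of_nonneg_left (one_le_mul_of_one_le_of_one_le hD' hL') (by linarith)
  have c5 : m * (v * K) ≤ m * (m * K) :=
    mul_le_mul_of_nonneg_left (mul_le_mul_of_nonneg_right hv' (by positivity)) (by linarith)
  have c6 : m * (m * K) * 1 ≤ m * (m * K) * D := mul_le_mul_of_nonneg_left hD' (by positivity)
  have c7 : (m * (v * K)) * (D + 1) ≤ (m * (m * K)) * (2 * D) :=
    mul_le_mul c5 (by linarith) (by positivity) (by positivity)
  have c8 : (m * Lc) * (D + 1) ≤ (m * Lc) * (2 * D) :=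
    mul_le_mul_of_nonneg_left (by linarith) (by positivity)
  have c9 : (m * (K * ℓ)) * (D + 1) ≤ (m * (K * ℓ)) * (2 * D) :=
    mul_le_mul_of_nonneg_left (by linarith) (by positivity)
  have h4 : 32 * m * E ≤ 32 * (m * (D * Lc)) + 32 * ((m * (m * K)) * (2 * D)) + 32 * ((m * Lc) * (2 * D)) +
      64 * (m * (m * K) * D) + 32 * ((m * (K * ℓ)) * (2 * D)) + 64 * (m * D * (Lc * U)) := by
    rw [hE]
    linarith
  linarith

theorem st_PNA (h1 : ST_AD3) (h2 : Pool.Helper99.BK.ST_MINOR) (h3 : Pool.Helper99.BK.ST_AR) : ST_PNA := by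
  intro n D hD L _ _ hfr φ g0 g nrm G Z U ℓ Ti K Lc c ω lam0 hG hZ hLD hlam hgi hnω hlamT hU hℓ hZU hKG
    hLG hLn hTi v V hv1 hV J hJ
  classical
  have hG0 : (0 : ℝ) < G := by linarith
  have hD' : (1 : ℝ) ≤ D := by exact_mod_cast hD
  have hn0 : (0 : ℝ) ≤ (n : ℝ) := by positivity
  have hvn : v ≤ n := by
    rw [← hV]
    have := Submodule.finrank_le V
    rwa [Module.finrank_fintype_fun_eq_card, Fintype.card_fin] at this
  have hZU1 : 1 ≤ Z * U := one_le_mul_of_one_le_of_one_le hZ hU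
  have hKG1 : 4096 * U ≤ K * G := by
    refine le_trans ?_ hKG
    have : 4096 * (1 * 1) * U ≤ 4096 * (((n : ℝ) + 1) * D) * U :=
      mul_le_mul_of_nonneg_right (mul_le_mul_of_nonneg_left
        (mul_le_mul (by linarith) hD' (by norm_num) (by positivity)) (by norm_num)) (by linarith)
    linarith
  have hK1 : 1 ≤ K := by
    rcases Nat.eq_zero_or_pos K with h | h
    · exfalso
      rw [h] at hKG1
      simp only [Nat.cast_zero, zero_mul] at hKG1
      linarith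
    · exact h
  have hL32 : 32 * v ≤ Lc := by omega
  have hL1 : 1 ≤ Lc := by omega
  have hK' : (1 : ℝ) ≤ K := by exact_mod_cast hK1
  have hL' : (1 : ℝ) ≤ Lc := by exact_mod_cast hL1
  by_contra hcon
  push Not at hcon
  -- the points
  obtain ⟨r, hr⟩ := h2 L {a : ℤ × (Fin n → ℤ) // nrm a ≤ U ∧ (fun i => ((a.2 i : ℤ) : ℚ)) ∈ V}
    (Sx v K × Fin Lc) (fun a j => (∏ i, ((a.1.2 (J i) : ℤ) : L) ^ (j.1.1 i : ℕ)) *
      (g0 ^ a.1.1 * ∏ i, g i ^ (a.1.2 i)) ^ (j.2 : ℕ)) (by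
      intro x hx
      by_contra hx0
      obtain ⟨a, ha1, ha2, ha3⟩ := hcon x hx0
      apply ha3
      have := hx ⟨a, ha1, ha2⟩
      rw [← this]
      exact Finset.sum_congr rfl fun j _ => mul_comm _ _)
  obtain ⟨N, hN⟩ : ∃ N : ℕ, N = Fintype.card (Sx v K × Fin Lc) := ⟨_, rfl⟩
  have hN1 : 1 ≤ N := by
    rw [hN, Fintype.card_prod, Fintype.card_fin]
    have : 0 < Fintype.card (Sx v K) := Fintype.card_pos_iff.2 ⟨⟨fun _ => 0, by simp⟩⟩
    exact Nat.mul_pos this hL1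
  -- denominators
  choose qd hqd using hLD.den
  have har := h3 L φ (Sx v K × Fin Lc) _ hr (fun p => (qd (r p).1) ^ Lc)
    (fun p => pow_pos (hqd (r p).1).1 _) (by
      intro p j
      rw [Matrix.of_apply]
      have e1 : (((qd (r p).1) ^ Lc : ℕ) : L) * ((∏ i, (((r p).1.2 (J i) : ℤ) : L) ^ (j.1.1 i : ℕ)) *
          (g0 ^ (r p).1.1 * ∏ i, g i ^ ((r p).1.2 i)) ^ (j.2 : ℕ)) =
          (∏ i, (((r p).1.2 (J i) : ℤ) : L) ^ (j.1.1 i : ℕ)) *
          ((((qd (r p).1 : ℕ) : L) ^ (Lc - (j.2 : ℕ))) *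
          (((qd (r p).1 : ℕ) : L) * (g0 ^ (r p).1.1 * ∏ i, g i ^ ((r p).1.2 i))) ^ (j.2 : ℕ)) := by
        have e3 : (((qd (r p).1 : ℕ) : L)) ^ Lc = ((qd (r p).1 : ℕ) : L) ^ (Lc - (j.2 : ℕ)) *
            ((qd (r p).1 : ℕ) : L) ^ (j.2 : ℕ) := by
          rw [← pow_add]
          congr 1
          have := j.2.2
          omega
        rw [Nat.cast_pow, e3, mul_pow (((qd (r p).1 : ℕ) : L))
          (g0 ^ (r p).1.1 * ∏ i, g i ^ ((r p).1.2 i))]
        ring
      rw [e1]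
      refine IsIntegral.mul ?_ (IsIntegral.mul ?_ ?_)
      · refine IsIntegral.prod _ fun i _ => IsIntegral.pow ?_ _
        exact isIntegral_algebraMap (R := ℤ) (x := (r p).1.2 (J i))
      · refine IsIntegral.pow ?_ _
        exact_mod_cast isIntegral_algebraMap (R := ℤ) (A := L) (x := ((qd (r p).1 : ℕ) : ℤ))
      · exact IsIntegral.pow (hqd (r p).1).2.2 _)
    (Real.exp (Lc * U)) ((Z * U) ^ K * Real.exp (Lc * U))
    (one_le_mul_of_one_le_of_one_le (one_le_pow₀ hZU1) (Real.one_le_exp (by positivity)))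
    (by
      intro τ p j
      rw [Matrix.of_apply, map_mul, map_prod, map_pow, norm_mul, norm_prod, norm_pow]
      have ha := (r p).2.1
      refine mul_le_mul ?_ ?_ (pow_nonneg (norm_nonneg _) _) (by positivity)
      · have h4 : ∀ i, ‖τ ((((r p).1.2 (J i) : ℤ) : L) ^ (j.1.1 i : ℕ))‖ =
            |(((r p).1.2 (J i) : ℤ) : ℝ)| ^ (j.1.1 i : ℕ) := by
          intro i
          rw [map_pow, map_intCast, norm_pow, Complex.norm_intCast]
        rw [Finset.prod_congr rfl fun i _ => h4 i]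
        refine pna_mono v K j.1 (fun i => |(((r p).1.2 (J i) : ℤ) : ℝ)|) (Z * U) hZU1
          (fun i => abs_nonneg _) (fun i => ?_)
        exact (hLD.coo (r p).1 (J i)).trans (mul_le_mul_of_nonneg_left ha (by linarith))
      · have h5 := (hLD.conj (r p).1 τ).trans (Real.exp_le_exp.2 ha)
        calc ‖τ (g0 ^ (r p).1.1 * ∏ i, g i ^ ((r p).1.2 i))‖ ^ (j.2 : ℕ)
            ≤ Real.exp U ^ (j.2 : ℕ) := pow_le_pow_left₀ (norm_nonneg _) h5 _
          _ ≤ Real.exp U ^ Lc := pow_le_pow_right₀ (Real.one_le_exp (by linarith)) j.2.2.le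
          _ = Real.exp (Lc * U) := by rw [← Real.exp_nat_mul])
    (by
      intro p
      have h5 := (hqd (r p).1).2.1.trans (Real.exp_le_exp.2 (r p).2.1)
      calc (((qd (r p).1) ^ Lc : ℕ) : ℝ) = ((qd (r p).1 : ℕ) : ℝ) ^ Lc := by push_cast; rfl
        _ ≤ Real.exp U ^ Lc := pow_le_pow_left₀ (by positivity) h5 _
        _ = Real.exp (Lc * U) := by rw [← Real.exp_nat_mul])
  -- the analytic estimate
  obtain ⟨t, ht⟩ : ∃ t : ℕ, t = N * Lc * K / (16 * v) := ⟨_, rfl⟩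
  have h16 : 0 < 16 * v := by omega
  have ht1 : 16 * v * t ≤ N * Lc * K := by
    rw [ht]
    exact Nat.mul_div_le _ _
  have hbig : 16 * v ≤ N * Lc * K := by
    have h6 : 1 * Lc * 1 ≤ N * Lc * K := Nat.mul_le_mul (Nat.mul_le_mul_right _ hN1) hK1
    omega
  have ht2 : 1 ≤ t := by
    rw [ht]
    exact (Nat.one_le_div_iff h16).2 hbig
  have ht3 : N * Lc * K < 32 * v * t := by
    have h6 : N * Lc * K < 16 * v * (t + 1) := by
      rw [ht]
      exact Nat.lt_mul_div_succ _ h16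
    have h7 : 16 * v * (t + 1) ≤ 32 * v * t := by
      have h8 : 16 * v * 1 ≤ 16 * v * t := Nat.mul_le_mul_left _ ht2
      calc 16 * v * (t + 1) = 16 * v * t + 16 * v * 1 := by ring
        _ ≤ 16 * v * t + 16 * v * t := by omega
        _ = 32 * v * t := by ring
    omega
  have hTX : ∀ (p : Sx v K × Fin Lc) (l : Fin Lc),
      ‖((l : ℕ) : ℂ) * ((((r p).1.1 : ℤ) : ℂ) * lam0)‖ ≤ (Lc : ℝ) * U * Real.exp (-Ti) := by
    intro p l
    rw [norm_mul, norm_mul, Complex.norm_natCast, Complex.norm_intCast, ← mul_assoc]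
    have hl : ((l : ℕ) : ℝ) ≤ Lc := by exact_mod_cast l.2.le
    refine mul_le_mul (mul_le_mul hl ((hLD.co0 (r p).1).trans (r p).2.1) (abs_nonneg _) (by positivity))
      hlamT (norm_nonneg _) (by positivity)
  have hsmall : 2 * ((Lc : ℝ) * U * Real.exp (-Ti)) ≤ Real.exp (-(K * Lc * G)) := by
    have h6 : 2 * ((Lc : ℝ) * U) ≤ K * Lc * G := by
      have := mul_le_mul_of_nonneg_left hKG1 (show (0 : ℝ) ≤ Lc by positivity)
      have h7 : (0 : ℝ) ≤ Lc * U := by positivity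
      linarith
    have h8 : (K : ℝ) * Lc * G ≤ Real.exp (K * Lc * G) := by
      have := Real.add_one_le_exp ((K : ℝ) * Lc * G)
      linarith
    have h9 : Real.exp (-Ti) ≤ Real.exp (-(2 * K * Lc * G)) := Real.exp_le_exp.2 (by linarith)
    calc 2 * ((Lc : ℝ) * U * Real.exp (-Ti)) = (2 * ((Lc : ℝ) * U)) * Real.exp (-Ti) := by ring
      _ ≤ Real.exp (K * Lc * G) * Real.exp (-(2 * K * Lc * G)) :=
          mul_le_mul (h6.trans h8) h9 (Real.exp_pos _).le (Real.exp_pos _).le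
      _ = Real.exp (-(K * Lc * G)) := by
          rw [← Real.exp_add]
          congr 1
          ring
  have hXpos : (0 : ℝ) ≤ K * Lc * G := by positivity
  have had := h1 n v K Lc t hv1 V hV J hJ hK1 hL32 (by rw [← hN]; exact ht1)
    (fun p => (r p).1.2) (fun p => (r p).2.2) c ω (fun p => (((r p).1.1 : ℤ) : ℂ) * lam0)
    (Z * U) U G (K * Lc * G) hZU1 (by linarith) hG0.le hXpos
    (fun p i => (hLD.coo (r p).1 i).trans (mul_le_mul_of_nonneg_left (r p).2.1 (by linarith)))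
    (fun p => (hnω (r p).1).trans (r p).2.1)
    (by
      intro p l
      have h6 := hTX p l
      have h7 : ‖((l : ℕ) : ℂ) * ((((r p).1.1 : ℤ) : ℂ) * lam0)‖ ≤ 1 := by
        have h8 : Real.exp (-(K * Lc * G)) ≤ 1 := Real.exp_le_one_iff.2 (by linarith)
        have h9 : 0 ≤ (Lc : ℝ) * U * Real.exp (-Ti) := by positivity
        linarith
      have h8 := Complex.norm_exp_sub_one_le h7
      linarith)
    (by
      rw [← hN]
      have h6 : (16 : ℝ) * v * t ≤ N * Lc * K := by exact_mod_cast ht1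
      have h7 : (1 : ℝ) * t ≤ v * t := mul_le_mul_of_nonneg_right (by exact_mod_cast hv1) (by positivity)
      have h8 : 2 * (t : ℝ) ≤ N * Lc * K := by
        have : (0 : ℝ) ≤ v * t := by positivity
        linarith
      have h9 := mul_le_mul_of_nonneg_right h8 hG0.le
      linarith)
  -- the two determinants agree
  have hdet : φ (Matrix.of (fun i j => (fun (a : {a : ℤ × (Fin n → ℤ) // nrm a ≤ U ∧
      (fun i => ((a.2 i : ℤ) : ℚ)) ∈ V}) (j : Sx v K × Fin Lc) =>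
      (∏ i, ((a.1.2 (J i) : ℤ) : L) ^ (j.1.1 i : ℕ)) *
      (g0 ^ a.1.1 * ∏ i, g i ^ (a.1.2 i)) ^ (j.2 : ℕ)) (r i) j)).det =
      (Matrix.of (fun p j : Sx v K × Fin Lc => (∏ i, (((r p).1.2 (J i) : ℤ) : ℂ) ^ (j.1.1 i : ℕ)) *
        Complex.exp (((∑ i, c i * (((r p).1.2 i : ℤ) : ℝ) : ℝ) : ℂ) * ω +
          (((r p).1.1 : ℤ) : ℂ) * lam0) ^ (j.2 : ℕ))).det := by
    rw [RingHom.map_det]
    congr 1
    ext p j
    rw [RingHom.mapMatrix_apply, Matrix.map_apply, Matrix.of_apply, Matrix.of_apply]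
    rw [pna_exp n φ g0 g c ω lam0 hlam hgi (r p).1, map_mul, map_prod, map_pow]
    congr 1
    refine Finset.prod_congr rfl fun i _ => ?_
    rw [map_pow, map_intCast]
  rw [hdet, ← hN] at har
  rw [← hN] at had
  -- exponents
  have hfr1 : 1 ≤ Module.finrank ℚ L := Module.finrank_pos
  have hNe : (N : ℝ) ≤ Real.exp ((v : ℝ) * K + Lc) := by
    rw [hN]
    exact pna_card v K Lc
  have hfac : ((N.factorial : ℕ) : ℝ) ≤ Real.exp (N * ((v : ℝ) * K + Lc)) := by
    have h6 : ((N.factorial : ℕ) : ℝ) ≤ (N : ℝ) ^ N := by exact_mod_cast Nat.factorial_le_pow N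
    refine h6.trans ?_
    rw [Real.exp_nat_mul]
    exact pow_le_pow_left₀ (by positivity) hNe _
  have hfac1 : (1 : ℝ) ≤ ((N.factorial : ℕ) : ℝ) := by
    exact_mod_cast Nat.succ_le_of_lt (Nat.factorial_pos N)
  have hZUe : Z * U ≤ Real.exp ℓ := by
    rw [← Real.log_le_iff_le_exp (by linarith)]
    exact hZU
  have hZUK : ∀ k : ℕ, (Z * U) ^ k ≤ Real.exp (k * ℓ) := by
    intro k
    rw [Real.exp_nat_mul]
    exact pow_le_pow_left₀ (by linarith) hZUe _
  have hve : (v : ℝ) ^ (2 * K) ≤ Real.exp (2 * K * v) := by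
    have h6 : (v : ℝ) ≤ Real.exp v := by
      have := Real.add_one_le_exp (v : ℝ)
      linarith
    have h7 : Real.exp (2 * K * v) = Real.exp v ^ (2 * K) := by
      rw [← Real.exp_nat_mul]
      push_cast
      ring_nf
    rw [h7]
    exact pow_le_pow_left₀ (by positivity) h6 _
  obtain ⟨lam, hlamd⟩ : ∃ lam : ℝ, lam = (v : ℝ) * K + Lc := ⟨_, rfl⟩
  rw [← hlamd] at hfac
  have hB1 : (1 : ℝ) ≤ (N.factorial : ℝ) * ((Z * U) ^ K * Real.exp (Lc * U)) ^ N :=
    one_le_mul_of_one_le_of_one_le hfac1 (one_le_pow₀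
      (one_le_mul_of_one_le_of_one_le (one_le_pow₀ hZU1) (Real.one_le_exp (by positivity))))
  have hBe : (N.factorial : ℝ) * ((Z * U) ^ K * Real.exp (Lc * U)) ^ N ≤
      Real.exp (N * (lam + (K * ℓ + Lc * U))) := by
    have h6 : ((Z * U) ^ K * Real.exp (Lc * U)) ^ N ≤ Real.exp (N * (K * ℓ + Lc * U)) := by
      rw [Real.exp_nat_mul (K * ℓ + Lc * U) N, Real.exp_add]
      exact pow_le_pow_left₀ (by positivity) (mul_le_mul_of_nonneg_right (hZUK K) (Real.exp_pos _).le) _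
    calc (N.factorial : ℝ) * ((Z * U) ^ K * Real.exp (Lc * U)) ^ N
        ≤ Real.exp (N * lam) * Real.exp (N * (K * ℓ + Lc * U)) :=
          mul_le_mul hfac h6 (by positivity) (Real.exp_pos _).le
      _ = Real.exp (N * (lam + (K * ℓ + Lc * U))) := by
          rw [← Real.exp_add]
          congr 1
          ring
  have hx1 : ((Real.exp (Lc * U)) ^ N) ^ (Module.finrank ℚ L) ≤ Real.exp (D * (N * (Lc * U))) := by
    calc ((Real.exp (Lc * U)) ^ N) ^ (Module.finrank ℚ L) ≤ ((Real.exp (Lc * U)) ^ N) ^ D :=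
          pow_le_pow_right₀ (one_le_pow₀ (Real.one_le_exp (by positivity))) hfr
      _ = Real.exp (D * (N * (Lc * U))) := by
          rw [Real.exp_nat_mul (N * (Lc * U)) D, Real.exp_nat_mul (Lc * U) N]
  have hx2 : ((N.factorial : ℝ) * ((Z * U) ^ K * Real.exp (Lc * U)) ^ N) ^ (Module.finrank ℚ L - 1) ≤
      Real.exp (((D : ℝ) - 1) * (N * (lam + (K * ℓ + Lc * U)))) := by
    calc ((N.factorial : ℝ) * ((Z * U) ^ K * Real.exp (Lc * U)) ^ N) ^ (Module.finrank ℚ L - 1)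
        ≤ ((N.factorial : ℝ) * ((Z * U) ^ K * Real.exp (Lc * U)) ^ N) ^ (D - 1) :=
          pow_le_pow_right₀ hB1 (Nat.sub_le_sub_right hfr 1)
      _ ≤ (Real.exp (N * (lam + (K * ℓ + Lc * U)))) ^ (D - 1) :=
          pow_le_pow_left₀ (by positivity) hBe _
      _ = Real.exp (((D : ℝ) - 1) * (N * (lam + (K * ℓ + Lc * U)))) := by
          rw [← Real.exp_nat_mul, Nat.cast_sub hD, Nat.cast_one]
  have hx3 : (2 : ℝ) ^ N * (((N.factorial : ℕ) : ℝ) ^ 2 *
      ((v : ℝ) ^ (2 * K) * (Z * U) ^ (2 * K) * Real.exp (Lc * U)) ^ N) * Real.exp (-(G * t)) ≤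
      Real.exp (N * 1 + (2 * (N * lam) + N * (2 * K * v + 2 * (K * ℓ) + Lc * U)) + -(G * t)) := by
    have h6 : (2 : ℝ) ^ N ≤ Real.exp (N * 1) := by
      rw [Real.exp_nat_mul]
      refine pow_le_pow_left₀ (by norm_num) ?_ _
      have := Real.add_one_le_exp (1 : ℝ)
      linarith
    have h7 : ((N.factorial : ℕ) : ℝ) ^ 2 ≤ Real.exp (2 * (N * lam)) := by
      have h8 : Real.exp (2 * (N * lam)) = Real.exp (N * lam) ^ 2 := by
        rw [← Real.exp_nat_mul]
        norm_num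
      rw [h8]
      exact pow_le_pow_left₀ (by positivity) hfac _
    have h9 : (v : ℝ) ^ (2 * K) * (Z * U) ^ (2 * K) * Real.exp (Lc * U) ≤
        Real.exp (2 * K * v + 2 * (K * ℓ) + Lc * U) := by
      rw [Real.exp_add, Real.exp_add]
      refine mul_le_mul_of_nonneg_right (mul_le_mul hve ?_ (by positivity) (Real.exp_pos _).le)
        (Real.exp_pos _).le
      have := hZUK (2 * K)
      push_cast at this
      rw [show 2 * ((K : ℝ) * ℓ) = 2 * K * ℓ by ring]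
      exact this
    have h10 : ((v : ℝ) ^ (2 * K) * (Z * U) ^ (2 * K) * Real.exp (Lc * U)) ^ N ≤
        Real.exp (N * (2 * K * v + 2 * (K * ℓ) + Lc * U)) := by
      rw [Real.exp_nat_mul (2 * K * v + 2 * (K * ℓ) + Lc * U) N]
      exact pow_le_pow_left₀ (by positivity) h9 _
    rw [Real.exp_add, Real.exp_add, Real.exp_add (2 * (N * lam))]
    refine mul_le_mul_of_nonneg_right ?_ (Real.exp_pos _).le
    exact mul_le_mul h6 (mul_le_mul h7 h10 (by positivity) (Real.exp_pos _).le) (by positivity)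
      (Real.exp_pos _).le
  have hfin : (1 : ℝ) ≤ Real.exp (N * 1 + (2 * (N * lam) + N * (2 * K * v + 2 * (K * ℓ) + Lc * U)) +
      -(G * t)) * (Real.exp (D * (N * (Lc * U))) *
      Real.exp (((D : ℝ) - 1) * (N * (lam + (K * ℓ + Lc * U))))) := by
    refine har.trans ?_
    refine mul_le_mul (had.trans hx3) (mul_le_mul hx1 hx2 (by positivity) (Real.exp_pos _).le)
      (by positivity) (Real.exp_pos _).le
  rw [← Real.exp_add, ← Real.exp_add] at hfin
  have hfin2 := Real.one_le_exp_iff.1 hfin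
  refine pna_num n D v K Lc t N G U ℓ hD hvn hv1 hG hU hℓ hN1 hK1 hL1 hKG hLG (by exact_mod_cast ht3) ?_
  rw [← hlamd]
  linarith

end Pool.Helper99.SZ
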