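import Pool.Agent.Helper99.SZ.Stmts3
import Pool.Agent.Helper68.SZ.PX3

set_option autoImplicit false

/-! (PX4) the entries of the determinant, `P`-adically, in one variable, `u` congruent to `1` modulo `P ^ jj` -/

namespace Pool.Helper99.SZ

open NumberField

theorem st_PX4 (h1 : ST_DVB) : ST_PX4 := by
  intro L _ _ P hP hP0 v K T jj j1 ι _ ζ y x u hjj hujj hT hx
  have hu : Dv P 1 (u - 1) := (h1 L P hP hP0).2.1 1 jj _ hjj hujj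
  classical
  refine ⟨fun b s => px3W j1 ζ y (fun i => (b.1 i : ℕ)) s, ?_, ?_⟩
  · intro b s
    have h2 := finrank_range_le_card (R := ℚ) (fun (i : Fin (s + 1)) => (fun r =>
      ((y r : ℤ) : ℚ) ^ (i : ℕ) *
        ∏ i' ∈ Finset.univ.erase j1, ((ζ r i' : ℤ) : ℚ) ^ (b.1 i' : ℕ)))
    rw [Fintype.card_fin] at h2
    exact h2
  intro k b hbk l
  have D := h1 L P hP hP0
  have hu0 : u ≠ 0 ∧ Dv P 0 u ∧ Dv P 0 u⁻¹ := D.2.2.2.2.2.1 _ hu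
  have huy : ∀ r, Dv P 0 (u ^ (y r)) := fun r =>
    (D.2.2.2.2.2.1 _ (D.2.2.2.2.2.2.1 1 u (y r) le_rfl hu)).2.1
  have hx0 : ∀ r, Dv P 0 (x r) := by
    intro r
    have h2 := D.2.2.1 0 _ _ (D.2.1 0 T _ (Nat.zero_le T) (hx r)) (huy r)
    simpa using h2
  have hint : ∀ n : ℤ, Dv P 0 ((n : ℤ) : L) := by
    intro n
    have := D.1 ((n : ℤ) : 𝓞 L)
    simpa using this
  -- the shift
  obtain ⟨Z, hZ⟩ : ∃ Z : ℕ, ∀ r, 0 ≤ y r + Z := by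
    refine ⟨∑ r, (y r).natAbs, fun r => ?_⟩
    have h2 : (y r).natAbs ≤ ∑ r, (y r).natAbs :=
      Finset.single_le_sum (f := fun r => (y r).natAbs) (fun _ _ => Nat.zero_le _)
        (Finset.mem_univ r)
    omega
  obtain ⟨N, hN⟩ : ∃ N : ι → ℕ, ∀ r, (N r : ℤ) = y r + Z :=
    ⟨fun r => (y r + Z).toNat, fun r => Int.toNat_of_nonneg (hZ r)⟩
  obtain ⟨B, hB⟩ : ∃ B : ℕ, ∀ r, l * N r < B := by
    refine ⟨(∑ r, l * N r) + 1, fun r => ?_⟩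
    have h2 : l * N r ≤ ∑ r, l * N r :=
      Finset.single_le_sum (f := fun r => l * N r) (fun _ _ => Nat.zero_le _) (Finset.mem_univ r)
    omega
  refine ⟨B, fun κ => (u - 1) ^ (κ : ℕ), fun κ => (κ : ℕ),
    fun κ r => (y r) ^ (k.1 j1 : ℕ) * ((((l * N r).choose (κ : ℕ) : ℕ) : ℤ) *
      ∏ i ∈ Finset.univ.erase j1, (ζ r i) ^ (k.1 i : ℕ)),
    (u⁻¹ ^ Z) ^ l, fun r => ((y r : ℤ) : L) ^ (k.1 j1 : ℕ) *
      (∏ i ∈ Finset.univ.erase j1, ((ζ r i : ℤ) : L) ^ (k.1 i : ℕ)) *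
        (x r ^ l - (u ^ (y r)) ^ l), ?_, ?_, ?_, ?_, ?_⟩
  · exact pdx_pow0 P hP hP0 h1 _ (pdx_pow0 P hP hP0 h1 _ hu0.2.2 Z) l
  · intro κ
    have h2 := pdx_pow P hP hP0 h1 jj _ hujj (κ : ℕ)
    rw [mul_comm] at h2
    exact h2
  · intro κ s' hs
    have h2 := px3_mem j1 ζ y (fun i => (b.1 i : ℕ)) s' (k.1 j1 : ℕ) (κ : ℕ)
      (px3Q l Z (κ : ℕ)) (px3Q_deg l Z κ) hs
    have h3 : (fun r => (((y r) ^ (k.1 j1 : ℕ) * ((((l * N r).choose (κ : ℕ) : ℕ) : ℤ) *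
        ∏ i ∈ Finset.univ.erase j1, (ζ r i) ^ (k.1 i : ℕ)) : ℤ) : ℚ)) =
        (fun r => ((y r : ℤ) : ℚ) ^ (k.1 j1 : ℕ) * ((px3Q l Z (κ : ℕ)).eval ((y r : ℤ) : ℚ) *
          ∏ i' ∈ Finset.univ.erase j1, ((ζ r i' : ℤ) : ℚ) ^ (b.1 i' : ℕ))) := by
      funext r
      rw [px3Q_eval l Z κ (y r) (N r) (hN r)]
      push_cast
      congr 2
      refine Finset.prod_congr rfl fun i hi => ?_
      rw [hbk i (Finset.ne_of_mem_erase hi)]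
    rw [h3]
    exact h2
  · intro r
    have h2 : Dv P 0 (((y r : ℤ) : L) ^ (k.1 j1 : ℕ) *
        (∏ i ∈ Finset.univ.erase j1, ((ζ r i : ℤ) : L) ^ (k.1 i : ℕ))) := by
      have h3 := pdx_pow0 P hP hP0 h1 _ (hint (y r)) (k.1 j1 : ℕ)
      have h4 : Dv P 0 (∏ i ∈ Finset.univ.erase j1, ((ζ r i : ℤ) : L) ^ (k.1 i : ℕ)) :=
        pdx_prod0 P hP hP0 h1 _ _ fun i _ => pdx_pow0 P hP hP0 h1 _ (hint _) _
      have := D.2.2.2.2.1 0 0 _ _ h3 h4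
      simpa using this
    have h5 := px3_sub P hP hP0 h1 T (x r) (u ^ (y r)) (hx0 r) (huy r) (hx r) l
    have := D.2.2.2.2.1 0 T _ _ h2 h5
    simpa using this
  · intro r
    have h2 : (u ^ (y r)) ^ l = (u⁻¹ ^ Z) ^ l * ∑ κ : Fin B,
        (((l * N r).choose (κ : ℕ) : ℕ) : L) * (u - 1) ^ (κ : ℕ) := by
      rw [← pdx_binom (u - 1) (l * N r) B (hB r)]
      have h3 : y r = -(Z : ℤ) + (N r : ℤ) := by
        rw [hN]
        ring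
      have h4 : (1 : L) + (u - 1) = u := by ring
      rw [h4, mul_comm l, pow_mul, ← mul_pow, h3, zpow_add₀ hu0.1, zpow_neg, zpow_natCast,
        zpow_natCast, inv_pow]
    have h5 : (u⁻¹ ^ Z) ^ l * ∑ κ : Fin B, (u - 1) ^ (κ : ℕ) *
        (((y r) ^ (k.1 j1 : ℕ) * ((((l * N r).choose (κ : ℕ) : ℕ) : ℤ) *
          ∏ i ∈ Finset.univ.erase j1, (ζ r i) ^ (k.1 i : ℕ)) : ℤ) : L) =
        ((y r : ℤ) : L) ^ (k.1 j1 : ℕ) *
          (∏ i ∈ Finset.univ.erase j1, ((ζ r i : ℤ) : L) ^ (k.1 i : ℕ)) * (u ^ (y r)) ^ l := by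
      rw [h2, mul_left_comm, Finset.mul_sum (a := ((y r : ℤ) : L) ^ (k.1 j1 : ℕ) *
          (∏ i ∈ Finset.univ.erase j1, ((ζ r i : ℤ) : L) ^ (k.1 i : ℕ)))]
      congr 1
      refine Finset.sum_congr rfl fun κ _ => ?_
      push_cast
      ring
    rw [h5]
    ring

end Pool.Helper99.SZ
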