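import Pool.Agent.Helper99.SZ.Stmts4

/-! Module QFI: the theorem for curves with a rational point of order two. -/

set_option autoImplicit false

namespace Pool.Helper99.SZ

open Finset

lemma qfi_root (b₂ b₄ b₆ : ℤ) (x : ℚ) (h : 4 * x ^ 3 + b₂ * x ^ 2 + 2 * b₄ * x + b₆ = 0) :
    ∃ n : ℤ, n ^ 3 + b₂ * n ^ 2 + 8 * b₄ * n + 16 * b₆ = 0 := by
  have hi : IsIntegral ℤ (4 * x) := by
    refine ⟨Polynomial.X ^ 3 + Polynomial.C b₂ * Polynomial.X ^ 2 +
      Polynomial.C (8 * b₄) * Polynomial.X + Polynomial.C (16 * b₆), ?_, ?_⟩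
    · monicity!
    · simp only [Polynomial.eval₂_add, Polynomial.eval₂_mul, Polynomial.eval₂_pow,
        Polynomial.eval₂_X, Polynomial.eval₂_C]
      simp only [algebraMap_int_eq, eq_intCast, Int.cast_mul]
      push_cast
      linear_combination 16 * h
  obtain ⟨n, hn⟩ := IsIntegrallyClosed.isIntegral_iff.mp hi
  refine ⟨n, ?_⟩
  have hn' : (n : ℚ) = 4 * x := by simpa using hn
  have : ((n ^ 3 + b₂ * n ^ 2 + 8 * b₄ * n + 16 * b₆ : ℤ) : ℚ) = 0 := by
    push_cast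
    rw [hn']
    linear_combination 16 * h
  exact_mod_cast this

lemma qfi_dvd (p : ℕ) (hp : p.Prime) (x : ℤ) (hx : x ≠ 0) :
    (p : ℤ) ∣ x ↔ 1 ≤ x.natAbs.factorization p := by
  rw [Int.natCast_dvd]
  exact hp.dvd_iff_one_le_factorization (Int.natAbs_ne_zero.mpr hx)

lemma qfi_R (b d D c : ℤ) (hb : b ≠ 0) (hd : d ≠ 0) (hD : D ≠ 0)
    (h : ∀ p : ℕ, p.Prime → ((p : ℤ) ∣ b ∨ (p : ℤ) ∣ d) →
      (if (p : ℤ) ∣ b ∧ (p : ℤ) ∣ d then b.natAbs.factorization p + d.natAbs.factorization p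
        else 1) ≤ (if (p : ℤ) ∣ D then (if (p : ℤ) ∣ c then D.natAbs.factorization p else 1)
        else 0) + (if p = 2 then 20 else 0)) :
    1 + ∑ p ∈ (b * d).natAbs.primeFactors, (if (p : ℤ) ∣ b ∧ (p : ℤ) ∣ d then
      ((b.natAbs.factorization p : ℝ) + (d.natAbs.factorization p : ℝ)) else 1) *
        Real.log p ≤ (1 + ∑ p ∈ D.natAbs.primeFactors,
      (if (p : ℤ) ∣ c then (D.natAbs.factorization p : ℝ) else 1) * Real.log p) +
        20 * Real.log 2 := by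
  have h1 : ∀ p ∈ (b * d).natAbs.primeFactors, (if (p : ℤ) ∣ b ∧ (p : ℤ) ∣ d then
      ((b.natAbs.factorization p : ℝ) + (d.natAbs.factorization p : ℝ)) else 1) *
        Real.log p ≤ (if (p : ℤ) ∣ D then
          (if (p : ℤ) ∣ c then (D.natAbs.factorization p : ℝ) else 1) * Real.log p else 0) +
          (if p = 2 then 20 * Real.log 2 else 0) := by
    intro p hp
    have hpp : p.Prime := Nat.prime_of_mem_primeFactors hp
    have hpd : p ∣ (b * d).natAbs := Nat.dvd_of_mem_primeFactors hp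
    have hpd' : (p : ℤ) ∣ b * d := Int.natCast_dvd.mpr hpd
    have hor : (p : ℤ) ∣ b ∨ (p : ℤ) ∣ d :=
      (Nat.prime_iff_prime_int.mp hpp).dvd_or_dvd hpd'
    have h0 := h p hpp hor
    have hl : 0 ≤ Real.log p := Real.log_nonneg (by exact_mod_cast hpp.one_lt.le)
    have h2 : (if (p : ℤ) ∣ b ∧ (p : ℤ) ∣ d then
      ((b.natAbs.factorization p : ℝ) + (d.natAbs.factorization p : ℝ)) else 1) ≤
        (if (p : ℤ) ∣ D then (if (p : ℤ) ∣ c then (D.natAbs.factorization p : ℝ) else 1)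
        else 0) + (if p = 2 then 20 else 0) := by
      split_ifs at h0 ⊢ <;> exact_mod_cast h0
    refine (mul_le_mul_of_nonneg_right h2 hl).trans (le_of_eq ?_)
    rw [add_mul]
    congr 1
    · split_ifs <;> simp
    · split_ifs with h3
      · rw [h3]; norm_num
      · simp
  have h2 := Finset.sum_le_sum h1
  rw [Finset.sum_add_distrib, Finset.sum_ite_eq', ← Finset.sum_filter] at h2
  have h3 : ∑ p ∈ (b * d).natAbs.primeFactors.filter (fun p : ℕ => (p : ℤ) ∣ D),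
      (if (p : ℤ) ∣ c then (D.natAbs.factorization p : ℝ) else 1) * Real.log p ≤
      ∑ p ∈ D.natAbs.primeFactors,
      (if (p : ℤ) ∣ c then (D.natAbs.factorization p : ℝ) else 1) * Real.log p := by
    refine Finset.sum_le_sum_of_subset_of_nonneg ?_ ?_
    · intro p hp
      rw [Finset.mem_filter] at hp
      rw [Nat.mem_primeFactors]
      exact ⟨Nat.prime_of_mem_primeFactors hp.1, Int.natCast_dvd.mp hp.2,
        Int.natAbs_ne_zero.mpr hD⟩
    · intro p hp _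
      have hpp : p.Prime := Nat.prime_of_mem_primeFactors hp
      have hl : 0 ≤ Real.log p := Real.log_nonneg (by exact_mod_cast hpp.one_lt.le)
      refine mul_nonneg ?_ hl
      split_ifs
      · positivity
      · norm_num
  have h4 : (if 2 ∈ (b * d).natAbs.primeFactors then 20 * Real.log 2 else 0) ≤
      20 * Real.log 2 := by
    have := Real.log_nonneg (show (1 : ℝ) ≤ 2 by norm_num)
    split_ifs <;> linarith
  linarith

lemma qfi_prod (b d D c : ℤ) (hD : D ≠ 0)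
    (h1 : ∀ p : ℕ, p.Prime → p ≠ 2 → ((p : ℤ) ∣ b ∨ (p : ℤ) ∣ d) → (p : ℤ) ∣ D)
    (h2 : ∀ p : ℕ, p.Prime → (p : ℤ) ∣ b → (p : ℤ) ∣ d → (p : ℤ) ∣ c) :
    (∏ q ∈ d.natAbs.primeFactors, q) * (∏ q ∈ b.natAbs.primeFactors, q) ≤
      4 * ∏ p ∈ D.natAbs.primeFactors, (if (p : ℤ) ∣ c then p ^ 2 else p) := by
  set U := d.natAbs.primeFactors ∪ b.natAbs.primeFactors ∪ D.natAbs.primeFactors with hU
  have e1 : ∏ q ∈ d.natAbs.primeFactors, q =
      ∏ q ∈ U, if q ∈ d.natAbs.primeFactors then q else 1 := by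
    rw [Finset.prod_ite_mem]
    congr 1
    rw [eq_comm, Finset.inter_eq_right]
    intro q hq
    simp only [hU, Finset.mem_union]
    exact Or.inl (Or.inl hq)
  have e2 : ∏ q ∈ b.natAbs.primeFactors, q =
      ∏ q ∈ U, if q ∈ b.natAbs.primeFactors then q else 1 := by
    rw [Finset.prod_ite_mem]
    congr 1
    rw [eq_comm, Finset.inter_eq_right]
    intro q hq
    simp only [hU, Finset.mem_union]
    exact Or.inl (Or.inr hq)
  have e3 : ∏ p ∈ D.natAbs.primeFactors, (if (p : ℤ) ∣ c then p ^ 2 else p) =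
      ∏ q ∈ U, if q ∈ D.natAbs.primeFactors then (if (q : ℤ) ∣ c then q ^ 2 else q) else 1 := by
    rw [Finset.prod_ite_mem]
    congr 1
    rw [eq_comm, Finset.inter_eq_right]
    intro q hq
    simp only [hU, Finset.mem_union]
    exact Or.inr hq
  have e4 : ∏ q ∈ U, (if q = 2 then 4 else 1) ≤ 4 := by
    rw [Finset.prod_ite_eq']
    split_ifs <;> norm_num
  rw [e1, e2, e3, ← Finset.prod_mul_distrib]
  refine le_trans ?_ (Nat.mul_le_mul_right _ e4)
  rw [← Finset.prod_mul_distrib]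
  refine Finset.prod_le_prod' ?_
  intro q hq
  have hqp : q.Prime := by
    simp only [hU, Finset.mem_union] at hq
    rcases hq with (hq | hq) | hq <;> exact Nat.prime_of_mem_primeFactors hq
  have hq1 := hqp.one_lt
  by_cases hq2 : q = 2
  · subst hq2
    have : 1 ≤ (if 2 ∈ D.natAbs.primeFactors then (if ((2 : ℕ) : ℤ) ∣ c then 2 ^ 2 else 2)
        else 1) := by
      split_ifs <;> norm_num
    rw [if_pos rfl]
    have h5 : (if 2 ∈ d.natAbs.primeFactors then 2 else 1) *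
        (if 2 ∈ b.natAbs.primeFactors then 2 else 1) ≤ 4 := by
      split_ifs <;> norm_num
    exact le_trans h5 (Nat.le_mul_of_pos_right 4 this)
  · rw [if_neg hq2, one_mul]
    by_cases hqd : q ∈ d.natAbs.primeFactors
    · have hqd' : (q : ℤ) ∣ d := Int.natCast_dvd.mpr (Nat.dvd_of_mem_primeFactors hqd)
      have hqD : (q : ℤ) ∣ D := h1 q hqp hq2 (Or.inr hqd')
      have hqD' : q ∈ D.natAbs.primeFactors := by
        rw [Nat.mem_primeFactors]
        exact ⟨hqp, Int.natCast_dvd.mp hqD, Int.natAbs_ne_zero.mpr hD⟩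
      rw [if_pos hqd, if_pos hqD']
      by_cases hqb : q ∈ b.natAbs.primeFactors
      · have hqb' : (q : ℤ) ∣ b := Int.natCast_dvd.mpr (Nat.dvd_of_mem_primeFactors hqb)
        rw [if_pos hqb, if_pos (h2 q hqp hqb' hqd'), pow_two]
      · rw [if_neg hqb, mul_one]
        split_ifs
        · nlinarith
        · exact le_rfl
    · rw [if_neg hqd, one_mul]
      by_cases hqb : q ∈ b.natAbs.primeFactors
      · have hqb' : (q : ℤ) ∣ b := Int.natCast_dvd.mpr (Nat.dvd_of_mem_primeFactors hqb)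
        have hqD : (q : ℤ) ∣ D := h1 q hqp hq2 (Or.inl hqb')
        have hqD' : q ∈ D.natAbs.primeFactors := by
          rw [Nat.mem_primeFactors]
          exact ⟨hqp, Int.natCast_dvd.mp hqD, Int.natAbs_ne_zero.mpr hD⟩
        rw [if_pos hqb, if_pos hqD']
        split_ifs
        · nlinarith
        · exact le_rfl
      · rw [if_neg hqb]
        split_ifs
        · exact Nat.one_le_pow _ _ hqp.pos
        · exact hqp.pos
        · exact le_rfl

lemma qfi_pair (hQ : ST_QMN) (hR : ST_RMN) (δ : ℝ) (hδ : 0 < δ) : ∃ C : ℝ, 1 ≤ C ∧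
    ∀ a b d : ℤ, d = a ^ 2 - 4 * b → b ≠ 0 → d ≠ 0 → ∀ R : ℝ,
    1 + ∑ p ∈ (b * d).natAbs.primeFactors, (if (p : ℤ) ∣ b ∧ (p : ℤ) ∣ d then
      ((b.natAbs.factorization p : ℝ) + (d.natAbs.factorization p : ℝ)) else 1) *
        Real.log p ≤ R →
    Real.log (|(a : ℝ)| + |(b : ℝ)| + |(d : ℝ)|) ≤
      C * ((∏ q ∈ d.natAbs.primeFactors, q : ℕ) : ℝ) * Real.exp (δ * R) := by
  obtain ⟨C1, hC1, h1⟩ := hQ δ hδ
  obtain ⟨C2, hC2, h2⟩ := hR δ hδ
  refine ⟨max C1 C2, le_max_of_le_left hC1, ?_⟩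
  intro a b d hd hb hd0 R hR
  have hN1 : 1 ≤ ∏ q ∈ d.natAbs.primeFactors, q :=
    Finset.one_le_prod' (fun q hq => (Nat.prime_of_mem_primeFactors hq).pos)
  have hE := Real.exp_pos (δ * R)
  have hN1' : (1 : ℝ) ≤ ((∏ q ∈ d.natAbs.primeFactors, q : ℕ) : ℝ) := by exact_mod_cast hN1
  by_cases hsq : ∃ n : ℤ, n ^ 2 = d
  · obtain ⟨f, hf⟩ := hsq
    have hf0 : f ≠ 0 := by
      rintro rfl
      apply hd0
      rw [← hf]
      ring
    have h3 := h2 a b d f hd hb hf.symm hf0 R ((∏ q ∈ d.natAbs.primeFactors, q : ℕ) : ℝ) hN1'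
      (by
        intro q hq _
        have : q ≤ ∏ q ∈ d.natAbs.primeFactors, q :=
          Nat.le_of_dvd (by omega) (Finset.dvd_prod_of_mem _ hq)
        exact_mod_cast this) hR
    refine h3.trans ?_
    have : C2 ≤ max C1 C2 := le_max_right _ _
    gcongr
  · push Not at hsq
    have hM1 : 1 ≤ ∏ q ∈ d.natAbs.primeFactors, q ^ (d.natAbs.factorization q % 2) :=
      Finset.one_le_prod' (fun q hq => Nat.one_le_pow _ _ (Nat.prime_of_mem_primeFactors hq).pos)
    have hM1' : (1 : ℝ) ≤ ((∏ q ∈ d.natAbs.primeFactors,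
        q ^ (d.natAbs.factorization q % 2) : ℕ) : ℝ) := by exact_mod_cast hM1
    have hsM : Real.sqrt ((∏ q ∈ d.natAbs.primeFactors,
        q ^ (d.natAbs.factorization q % 2) : ℕ) : ℝ) ≤ ((∏ q ∈ d.natAbs.primeFactors,
        q ^ (d.natAbs.factorization q % 2) : ℕ) : ℝ) := by
      rw [Real.sqrt_le_left (by linarith)]
      nlinarith
    obtain ⟨B, hB1, hB2, hB3⟩ : ∃ B : ℕ, 1 ≤ B ∧ (∀ q ∈ d.natAbs.primeFactors,
        Even (d.natAbs.factorization q) → q ≤ B) ∧ (∏ q ∈ d.natAbs.primeFactors,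
        q ^ (d.natAbs.factorization q % 2)) * B ≤ ∏ q ∈ d.natAbs.primeFactors, q := by
      by_cases hS : (d.natAbs.primeFactors.filter
          (fun q => Even (d.natAbs.factorization q))).Nonempty
      · obtain ⟨q0, hq0, hmax⟩ := Finset.exists_max_image _ (fun q : ℕ => q) hS
        rw [Finset.mem_filter] at hq0
        refine ⟨q0, (Nat.prime_of_mem_primeFactors hq0.1).pos, ?_, ?_⟩
        · intro q hq hqe
          exact hmax q (Finset.mem_filter.mpr ⟨hq, hqe⟩)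
        · have e1 : q0 = ∏ q ∈ d.natAbs.primeFactors, (if q = q0 then q0 else 1) := by
            rw [Finset.prod_ite_eq' , if_pos hq0.1]
          conv_lhs => rw [e1, ← Finset.prod_mul_distrib]
          refine Finset.prod_le_prod' ?_
          intro q hq
          have hqp := (Nat.prime_of_mem_primeFactors hq).pos
          by_cases h5 : q = q0
          · subst h5
            have : d.natAbs.factorization q % 2 = 0 := Nat.even_iff.mp hq0.2
            rw [this]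
            simp
          · rw [if_neg h5, mul_one]
            calc q ^ (d.natAbs.factorization q % 2) ≤ q ^ 1 :=
                  Nat.pow_le_pow_right hqp (by omega)
              _ = q := pow_one q
      · refine ⟨1, le_rfl, ?_, ?_⟩
        · intro q hq hqe
          exact absurd ⟨q, Finset.mem_filter.mpr ⟨hq, hqe⟩⟩ hS
        · rw [mul_one]
          refine Finset.prod_le_prod' ?_
          intro q hq
          have hqp := (Nat.prime_of_mem_primeFactors hq).pos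
          calc q ^ (d.natAbs.factorization q % 2) ≤ q ^ 1 :=
                Nat.pow_le_pow_right hqp (by omega)
            _ = q := pow_one q
    have h3 := h1 a b d hd hb hsq R (B : ℝ) (by exact_mod_cast hB1)
      (by
        intro q hq _ hqe
        exact_mod_cast hB2 q hq hqe) hR
    refine h3.trans ?_
    have h4 : Real.sqrt ((∏ q ∈ d.natAbs.primeFactors,
        q ^ (d.natAbs.factorization q % 2) : ℕ) : ℝ) * (B : ℝ) ≤
        ((∏ q ∈ d.natAbs.primeFactors, q : ℕ) : ℝ) := by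
      refine (mul_le_mul_of_nonneg_right hsM (Nat.cast_nonneg B)).trans ?_
      exact_mod_cast hB3
    have h5 : C1 ≤ max C1 C2 := le_max_left _ _
    have h6 : 0 ≤ Real.sqrt ((∏ q ∈ d.natAbs.primeFactors,
        q ^ (d.natAbs.factorization q % 2) : ℕ) : ℝ) * (B : ℝ) :=
      mul_nonneg (Real.sqrt_nonneg _) (Nat.cast_nonneg B)
    calc C1 * Real.sqrt ((∏ q ∈ d.natAbs.primeFactors,
        q ^ (d.natAbs.factorization q % 2) : ℕ) : ℝ) * (B : ℝ) * Real.exp (δ * R)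
        = C1 * (Real.sqrt ((∏ q ∈ d.natAbs.primeFactors,
          q ^ (d.natAbs.factorization q % 2) : ℕ) : ℝ) * (B : ℝ)) * Real.exp (δ * R) := by ring
      _ ≤ max C1 C2 * ((∏ q ∈ d.natAbs.primeFactors, q : ℕ) : ℝ) * Real.exp (δ * R) := by
          have : (0 : ℝ) ≤ max C1 C2 := by linarith
          gcongr

lemma qfi_val0 (b d D : ℤ) (hb : b ≠ 0) (hd : d ≠ 0) (hD : D ≠ 0)
    (hbd : b ^ 2 * d = 256 * D) (p : ℕ) (hp : p.Prime) :
    2 * b.natAbs.factorization p + d.natAbs.factorization p =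
      (if p = 2 then 8 else 0) + D.natAbs.factorization p := by
  have h1 : b.natAbs ^ 2 * d.natAbs = 2 ^ 8 * D.natAbs := by
    have := congrArg Int.natAbs hbd
    rw [Int.natAbs_mul, Int.natAbs_mul, Int.natAbs_pow] at this
    simpa using this
  have hb1 := Int.natAbs_ne_zero.mpr hb
  have hd1 := Int.natAbs_ne_zero.mpr hd
  have hD1 := Int.natAbs_ne_zero.mpr hD
  have h2 := congrArg (fun n : ℕ => n.factorization p) h1
  rw [Nat.factorization_mul (pow_ne_zero 2 hb1) hd1, Nat.factorization_mul (by norm_num) hD1,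
    Finsupp.add_apply, Finsupp.add_apply, Nat.factorization_pow, Nat.factorization_pow,
    Finsupp.smul_apply, Finsupp.smul_apply, Nat.Prime.factorization Nat.prime_two] at h2
  rw [Finsupp.single_apply] at h2
  simp only [smul_eq_mul] at h2
  rw [h2]
  by_cases hp2 : p = 2
  · rw [if_pos hp2, if_pos hp2.symm]
  · rw [if_neg hp2, if_neg (fun h => hp2 h.symm), mul_zero]

lemma qfi_val (b d D : ℤ) (hb : b ≠ 0) (hd : d ≠ 0) (hD : D ≠ 0)
    (hbd : b ^ 2 * d = 256 * D) (p : ℕ) (hp : p.Prime) (hp2 : p ≠ 2) :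
    2 * b.natAbs.factorization p + d.natAbs.factorization p = D.natAbs.factorization p := by
  rw [qfi_val0 b d D hb hd hD hbd p hp, if_neg hp2, zero_add]

/-- factorization of 16 x -/
lemma qfi_16 (x y : ℤ) (hx : x ≠ 0) (hy : y = 16 * x) (p : ℕ) (hp : p.Prime) :
    y.natAbs.factorization p = (if p = 2 then 4 else 0) + x.natAbs.factorization p := by
  have h1 : y.natAbs = 2 ^ 4 * x.natAbs := by
    rw [hy, Int.natAbs_mul]
    rfl
  have hx1 := Int.natAbs_ne_zero.mpr hx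
  rw [h1, Nat.factorization_mul (by norm_num) hx1, Finsupp.add_apply, Nat.factorization_pow,
    Finsupp.smul_apply, Nat.Prime.factorization Nat.prime_two, Finsupp.single_apply]
  simp only [smul_eq_mul]
  by_cases hp2 : p = 2
  · rw [if_pos hp2, if_pos hp2.symm]
  · rw [if_neg hp2, if_neg (fun h => hp2 h.symm), mul_zero]


lemma qfi_hyp (b d D c b' d' : ℤ) (hb : b ≠ 0) (hd : d ≠ 0) (hD : D ≠ 0) (hb' : b' ≠ 0)
    (hd' : d' ≠ 0) (hbd : b ^ 2 * d = 256 * D) (hc : c = d + b)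
    (hodd : ∀ p : ℕ, p.Prime → p ≠ 2 →
      (b'.natAbs.factorization p = b.natAbs.factorization p ∧
        d'.natAbs.factorization p = d.natAbs.factorization p) ∨
      (b'.natAbs.factorization p = d.natAbs.factorization p ∧
        d'.natAbs.factorization p = b.natAbs.factorization p))
    (h2 : (2 : ℤ) ∣ b' → (2 : ℤ) ∣ d' → (2 : ℤ) ∣ c ∧
      b'.natAbs.factorization 2 + d'.natAbs.factorization 2 ≤ D.natAbs.factorization 2 + 20) :
    ∀ p : ℕ, p.Prime → ((p : ℤ) ∣ b' ∨ (p : ℤ) ∣ d') →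
      (if (p : ℤ) ∣ b' ∧ (p : ℤ) ∣ d' then b'.natAbs.factorization p +
        d'.natAbs.factorization p
        else 1) ≤ (if (p : ℤ) ∣ D then (if (p : ℤ) ∣ c then D.natAbs.factorization p else 1)
        else 0) + (if p = 2 then 20 else 0) := by
  intro p hp hor
  by_cases hp2 : p = 2
  · subst hp2
    have hD2 : (((2 : ℕ) : ℤ) ∣ D) ∨ D.natAbs.factorization 2 = 0 := by
      rw [qfi_dvd 2 hp D hD]
      omega
    by_cases hboth : (((2 : ℕ) : ℤ) ∣ b') ∧ (((2 : ℕ) : ℤ) ∣ d')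
    · obtain ⟨h3, h4⟩ := h2 (by simpa using hboth.1) (by simpa using hboth.2)
      have h3' : ((2 : ℕ) : ℤ) ∣ c := by simpa using h3
      rw [if_pos hboth, if_pos h3', if_pos rfl]
      rcases hD2 with h5 | h5
      · rw [if_pos h5]
        exact h4
      · split_ifs <;> omega
    · rw [if_neg hboth, if_pos rfl]
      omega
  · have hv : 2 * b.natAbs.factorization p + d.natAbs.factorization p =
        D.natAbs.factorization p := qfi_val b d D hb hd hD hbd p hp hp2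
    have hcc : (p : ℤ) ∣ b → (p : ℤ) ∣ d → (p : ℤ) ∣ c := by
      intro h3 h4
      rw [hc]
      exact dvd_add h4 h3
    have e1 := qfi_dvd p hp b' hb'
    have e2 := qfi_dvd p hp d' hd'
    have e3 := qfi_dvd p hp D hD
    have e4 := qfi_dvd p hp b hb
    have e5 := qfi_dvd p hp d hd
    have ho := hodd p hp hp2
    rw [if_neg hp2]
    by_cases g : (p : ℤ) ∣ b' ∧ (p : ℤ) ∣ d'
    · rw [if_pos g]
      have g1 := e1.mp g.1
      have g2 := e2.mp g.2
      have g3 : 1 ≤ D.natAbs.factorization p := by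
        rcases ho with ⟨h3, h4⟩ | ⟨h3, h4⟩ <;> omega
      have g4 : (p : ℤ) ∣ c := by
        rcases ho with ⟨h3, h4⟩ | ⟨h3, h4⟩
        · exact hcc (e4.mpr (by omega)) (e5.mpr (by omega))
        · exact hcc (e4.mpr (by omega)) (e5.mpr (by omega))
      rw [if_pos (e3.mpr g3), if_pos g4]
      rcases ho with ⟨h3, h4⟩ | ⟨h3, h4⟩ <;> omega
    · rw [if_neg g]
      rw [e1, e2] at hor
      have g3 : 1 ≤ D.natAbs.factorization p := by
        rcases ho with ⟨h3, h4⟩ | ⟨h3, h4⟩ <;> omega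
      rw [if_pos (e3.mpr g3)]
      split_ifs <;> omega

lemma qfi_mix (L K x y P : ℝ) (hK : 0 ≤ K) (hx : 0 ≤ x) (hy : 0 ≤ y) (hP : 0 ≤ P)
    (h1 : L ≤ K * x) (h2 : L ≤ K * y) (h3 : x * y ≤ 8 * P) : L ≤ 3 * K * Real.sqrt P := by
  by_contra h
  push Not at h
  have hs := Real.sqrt_nonneg P
  have hs2 := Real.sq_sqrt hP
  have h0 : 0 ≤ 3 * K * Real.sqrt P := by positivity
  have hL : 0 < L := lt_of_le_of_lt h0 h
  have h4 : L * L ≤ (K * x) * (K * y) := mul_le_mul h1 h2 hL.le (by positivity)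
  have h5 : (3 * K * Real.sqrt P) * (3 * K * Real.sqrt P) < L * L := by
    nlinarith
  have h6 : (K * x) * (K * y) ≤ K ^ 2 * (8 * P) := by
    have : (K * x) * (K * y) = K ^ 2 * (x * y) := by ring
    rw [this]
    exact mul_le_mul_of_nonneg_left h3 (by positivity)
  have h7 : (3 * K * Real.sqrt P) * (3 * K * Real.sqrt P) = K ^ 2 * (9 * P) := by
    calc (3 * K * Real.sqrt P) * (3 * K * Real.sqrt P) = K ^ 2 * (9 * (Real.sqrt P) ^ 2) := by ring
      _ = _ := by rw [hs2]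
  have h8 : 0 ≤ K ^ 2 * P := by positivity
  nlinarith


lemma qfi_pf16 (x y : ℤ) (hx : x ≠ 0) (hy : y = 16 * x) :
    ∏ q ∈ y.natAbs.primeFactors, q ≤ 2 * ∏ q ∈ x.natAbs.primeFactors, q := by
  have hx1 := Int.natAbs_ne_zero.mpr hx
  have h1 : y.natAbs = 2 ^ 4 * x.natAbs := by
    rw [hy, Int.natAbs_mul]
    rfl
  have h2 : y.natAbs.primeFactors = insert 2 x.natAbs.primeFactors := by
    rw [h1, Nat.primeFactors_mul (by norm_num) hx1, Nat.primeFactors_pow 2 (by norm_num),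
      Nat.Prime.primeFactors Nat.prime_two]
    rfl
  rw [h2]
  by_cases h3 : 2 ∈ x.natAbs.primeFactors
  · rw [Finset.insert_eq_of_mem h3]
    omega
  · rw [Finset.prod_insert h3]

lemma qfi_core (C ε : ℝ) (hC : 1 ≤ C)
    (hpair : ∀ a b d : ℤ, d = a ^ 2 - 4 * b → b ≠ 0 → d ≠ 0 → ∀ R : ℝ,
    1 + ∑ p ∈ (b * d).natAbs.primeFactors, (if (p : ℤ) ∣ b ∧ (p : ℤ) ∣ d then
      ((b.natAbs.factorization p : ℝ) + (d.natAbs.factorization p : ℝ)) else 1) *
        Real.log p ≤ R →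
    Real.log (|(a : ℝ)| + |(b : ℝ)| + |(d : ℝ)|) ≤
      C * ((∏ q ∈ d.natAbs.primeFactors, q : ℕ) : ℝ) * Real.exp (ε * R))
    (a b d D c : ℤ) (hd : d = a ^ 2 - 4 * b) (hbd : b ^ 2 * d = 256 * D) (hc : c = d + b)
    (hD : D ≠ 0) (R : ℝ) (hR : R = 1 + ∑ p ∈ D.natAbs.primeFactors,
      (if (p : ℤ) ∣ c then (D.natAbs.factorization p : ℝ) else 1) * Real.log p) (L : ℝ)
    (hL : L = Real.log |(D : ℝ)| ∨ L = Real.log |(c : ℝ)|) :
    L ≤ 15 * C * Real.exp (ε * (20 * Real.log 2)) * Real.sqrt ((∏ p ∈ D.natAbs.primeFactors,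
      (if (p : ℤ) ∣ c then p ^ 2 else p) : ℕ) : ℝ) * Real.exp (ε * R) := by
  have hb : b ≠ 0 := by
    rintro rfl
    apply hD
    have : (256 : ℤ) * D = 0 := by rw [← hbd]; ring
    omega
  have hd0 : d ≠ 0 := by
    intro h
    apply hD
    have : (256 : ℤ) * D = 0 := by rw [← hbd, h]; ring
    omega
  have hlog : ∀ S : ℝ, 2 ≤ S → |(D : ℝ)| ≤ S ^ 5 → |(c : ℝ)| ≤ S ^ 5 → L ≤ 5 * Real.log S := by
    intro S hS h1 h2
    have h3 : Real.log (S ^ 5) = 5 * Real.log S := by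
      rw [Real.log_pow]
      norm_num
    rcases hL with rfl | rfl
    · rw [← h3]
      exact Real.log_le_log (abs_pos.mpr (by exact_mod_cast hD)) h1
    · by_cases hc0 : c = 0
      · rw [hc0]
        have := Real.log_nonneg (show (1 : ℝ) ≤ S by linarith)
        simp only [Int.cast_zero, abs_zero, Real.log_zero]
        linarith
      · rw [← h3]
        exact Real.log_le_log (abs_pos.mpr (by exact_mod_cast hc0)) h2
  have hv2 := qfi_val0 b d D hb hd0 hD hbd 2 Nat.prime_two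
  rw [if_pos rfl] at hv2
  -- real facts
  have rb : (1 : ℝ) ≤ |(b : ℝ)| := by exact_mod_cast Int.one_le_abs hb
  have rd : (1 : ℝ) ≤ |(d : ℝ)| := by exact_mod_cast Int.one_le_abs hd0
  have rD : |(b : ℝ)| ^ 2 * |(d : ℝ)| = 256 * |(D : ℝ)| := by
    have : |((b ^ 2 * d : ℤ) : ℝ)| = |((256 * D : ℤ) : ℝ)| := by rw [hbd]
    push_cast at this
    rw [abs_mul, abs_pow, abs_mul] at this
    rw [this]
    norm_num
  have rc : |(c : ℝ)| ≤ |(d : ℝ)| + |(b : ℝ)| := by
    rw [hc]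
    push_cast
    exact abs_add_le _ _
  have ra : 0 ≤ |(a : ℝ)| := abs_nonneg _
  have hprod := qfi_prod b d D c hD
    (by
      intro p hp hp2 h
      have h1 := qfi_val b d D hb hd0 hD hbd p hp hp2
      rw [qfi_dvd p hp b hb, qfi_dvd p hp d hd0] at h
      rw [qfi_dvd p hp D hD]
      omega)
    (by
      intro p _ h1 h2
      rw [hc]
      exact dvd_add h2 h1)
  set P : ℕ := ∏ p ∈ D.natAbs.primeFactors, (if (p : ℤ) ∣ c then p ^ 2 else p) with hP
  set Nd : ℕ := ∏ q ∈ d.natAbs.primeFactors, q with hNd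
  set Nb : ℕ := ∏ q ∈ b.natAbs.primeFactors, q with hNb
  set E : ℝ := Real.exp (ε * (R + 20 * Real.log 2)) with hE
  have hE0 : 0 < E := Real.exp_pos _
  -- first pair
  have hL1 : L ≤ (5 * C * E) * (Nd : ℝ) := by
    have h1 := hpair a b d hd hb hd0 (R + 20 * Real.log 2) (by
      rw [hR]
      exact qfi_R b d D c hb hd0 hD (qfi_hyp b d D c b d hb hd0 hD hb hd0 hbd hc
        (fun p _ _ => Or.inl ⟨rfl, rfl⟩)
        (by
          intro h1 h2
          refine ⟨by rw [hc]; exact dvd_add h2 h1, ?_⟩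
          omega)))
    have h2 := hlog (|(a : ℝ)| + |(b : ℝ)| + |(d : ℝ)|) (by linarith)
      (by
        have h3 : |(D : ℝ)| ≤ |(b : ℝ)| ^ 2 * |(d : ℝ)| := by
          rw [rD]
          linarith [abs_nonneg (D : ℝ)]
        refine h3.trans ?_
        have h4 : |(b : ℝ)| ≤ |(a : ℝ)| + |(b : ℝ)| + |(d : ℝ)| := by linarith
        have h5 : |(d : ℝ)| ≤ |(a : ℝ)| + |(b : ℝ)| + |(d : ℝ)| := by linarith
        calc |(b : ℝ)| ^ 2 * |(d : ℝ)| ≤ (|(a : ℝ)| + |(b : ℝ)| + |(d : ℝ)|) ^ 2 *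
              (|(a : ℝ)| + |(b : ℝ)| + |(d : ℝ)|) := by gcongr
          _ = (|(a : ℝ)| + |(b : ℝ)| + |(d : ℝ)|) ^ 3 := by ring
          _ ≤ (|(a : ℝ)| + |(b : ℝ)| + |(d : ℝ)|) ^ 5 :=
              pow_le_pow_right₀ (by linarith) (by norm_num))
      (by
        refine rc.trans ?_
        calc |(d : ℝ)| + |(b : ℝ)| ≤ (|(a : ℝ)| + |(b : ℝ)| + |(d : ℝ)|) ^ 1 := by linarith
          _ ≤ (|(a : ℝ)| + |(b : ℝ)| + |(d : ℝ)|) ^ 5 :=
              pow_le_pow_right₀ (by linarith) (by norm_num))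
    calc L ≤ 5 * Real.log (|(a : ℝ)| + |(b : ℝ)| + |(d : ℝ)|) := h2
      _ ≤ 5 * (C * (Nd : ℝ) * E) := by linarith
      _ = _ := by ring
  -- second pair
  have hL2 : L ≤ (5 * C * E) * (2 * (Nb : ℝ)) := by
    by_cases hcase : (2 : ℤ) ∣ c ∨ ¬ (2 : ℤ) ∣ d
    · have h16 : (16 : ℤ) * b ≠ 0 := mul_ne_zero (by norm_num) hb
      have h1 := hpair (2 * a) d (16 * b) (by rw [hd]; ring) hd0 h16 (R + 20 * Real.log 2) (by
        rw [hR]
        exact qfi_R d (16 * b) D c hd0 h16 hD (qfi_hyp b d D c d (16 * b) hb hd0 hD hd0 h16 hbd hc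
          (fun p hp hp2 => Or.inr ⟨rfl, by
            rw [qfi_16 b (16 * b) hb rfl p hp, if_neg hp2, zero_add]⟩)
          (by
            intro h1 h2
            rcases hcase with h3 | h3
            · refine ⟨h3, ?_⟩
              rw [qfi_16 b (16 * b) hb rfl 2 Nat.prime_two, if_pos rfl]
              omega
            · exact absurd h1 h3)))
      have h16' : |((16 * b : ℤ) : ℝ)| = 16 * |(b : ℝ)| := by
        push_cast
        rw [abs_mul]
        norm_num
      have h2a' : |((2 * a : ℤ) : ℝ)| = 2 * |(a : ℝ)| := by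
        push_cast
        rw [abs_mul]
        norm_num
      rw [h16', h2a'] at h1
      have h2 := hlog (2 * |(a : ℝ)| + |(d : ℝ)| + 16 * |(b : ℝ)|) (by linarith)
        (by
          have h3 : |(D : ℝ)| ≤ |(b : ℝ)| ^ 2 * |(d : ℝ)| := by
            rw [rD]
            linarith [abs_nonneg (D : ℝ)]
          refine h3.trans ?_
          have h4 : |(b : ℝ)| ≤ 2 * |(a : ℝ)| + |(d : ℝ)| + 16 * |(b : ℝ)| := by linarith
          have h5 : |(d : ℝ)| ≤ 2 * |(a : ℝ)| + |(d : ℝ)| + 16 * |(b : ℝ)| := by linarith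
          calc |(b : ℝ)| ^ 2 * |(d : ℝ)| ≤ (2 * |(a : ℝ)| + |(d : ℝ)| + 16 * |(b : ℝ)|) ^ 2 *
                (2 * |(a : ℝ)| + |(d : ℝ)| + 16 * |(b : ℝ)|) := by gcongr
            _ = (2 * |(a : ℝ)| + |(d : ℝ)| + 16 * |(b : ℝ)|) ^ 3 := by ring
            _ ≤ (2 * |(a : ℝ)| + |(d : ℝ)| + 16 * |(b : ℝ)|) ^ 5 :=
                pow_le_pow_right₀ (by linarith) (by norm_num))
        (by
          refine rc.trans ?_
          calc |(d : ℝ)| + |(b : ℝ)| ≤ (2 * |(a : ℝ)| + |(d : ℝ)| + 16 * |(b : ℝ)|) ^ 1 := by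
                linarith
            _ ≤ (2 * |(a : ℝ)| + |(d : ℝ)| + 16 * |(b : ℝ)|) ^ 5 :=
                pow_le_pow_right₀ (by linarith) (by norm_num))
      have h3 : ((∏ q ∈ (16 * b).natAbs.primeFactors, q : ℕ) : ℝ) ≤ 2 * (Nb : ℝ) := by
        exact_mod_cast qfi_pf16 b (16 * b) hb rfl
      calc L ≤ 5 * Real.log (2 * |(a : ℝ)| + |(d : ℝ)| + 16 * |(b : ℝ)|) := h2
        _ ≤ 5 * (C * ((∏ q ∈ (16 * b).natAbs.primeFactors, q : ℕ) : ℝ) * E) := by linarith
        _ ≤ 5 * (C * (2 * (Nb : ℝ)) * E) := by gcongr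
        _ = _ := by ring
    · push Not at hcase
      obtain ⟨hc2, hd2⟩ := hcase
      have hb2 : ¬ (2 : ℤ) ∣ b := by
        intro h
        exact hc2 (by rw [hc]; exact dvd_add hd2 h)
      have hvb : b.natAbs.factorization 2 = 0 := by
        have := (qfi_dvd 2 Nat.prime_two b hb).not
        have h3 : ¬ ((2 : ℕ) : ℤ) ∣ b := by simpa using hb2
        have h4 := this.mp h3
        omega
      have h16d : (16 : ℤ) ∣ d := by
        have h3 : 2 ^ 4 ∣ d.natAbs :=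
          (Nat.prime_two.pow_dvd_iff_le_factorization (Int.natAbs_ne_zero.mpr hd0)).mpr (by omega)
        have h4 : ((2 ^ 4 : ℕ) : ℤ) ∣ d := Int.natCast_dvd.mpr h3
        simpa using h4
      obtain ⟨d₁, hd₁⟩ := h16d
      have ha2 : (2 : ℤ) ∣ a := by
        have h3 : (2 : ℤ) ∣ a ^ 2 := by
          have : a ^ 2 = 2 * (8 * d₁ + 2 * b) := by
            have : a ^ 2 = d + 4 * b := by rw [hd]; ring
            rw [this, hd₁]; ring
          rw [this]
          exact dvd_mul_right _ _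
        exact Int.prime_two.dvd_of_dvd_pow h3
      obtain ⟨a₁, ha₁⟩ := ha2
      have hbd₁ : b = a₁ ^ 2 - 4 * d₁ := by
        have h3 : 16 * d₁ = (2 * a₁) ^ 2 - 4 * b := by rw [← hd₁, ← ha₁]; exact hd
        nlinarith
      have hd₁0 : d₁ ≠ 0 := by
        rintro rfl
        exact hd0 (by rw [hd₁]; ring)
      have h1 := hpair a₁ d₁ b hbd₁ hd₁0 hb (R + 20 * Real.log 2) (by
        rw [hR]
        exact qfi_R d₁ b D c hd₁0 hb hD (qfi_hyp b d D c d₁ b hb hd0 hD hd₁0 hb hbd hc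
          (fun p hp hp2 => Or.inr ⟨by
            rw [qfi_16 d₁ d hd₁0 hd₁ p hp, if_neg hp2, zero_add], rfl⟩)
          (by
            intro _ h2
            exact absurd h2 hb2)))
      have rd₁ : |(d : ℝ)| = 16 * |(d₁ : ℝ)| := by
        rw [hd₁]
        push_cast
        rw [abs_mul]
        norm_num
      have rd₁' : (1 : ℝ) ≤ |(d₁ : ℝ)| := by exact_mod_cast Int.one_le_abs hd₁0
      have ra₁ : 0 ≤ |(a₁ : ℝ)| := abs_nonneg _
      have h2 := hlog (|(a₁ : ℝ)| + |(d₁ : ℝ)| + |(b : ℝ)|) (by linarith)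
        (by
          have h3 : |(D : ℝ)| ≤ |(b : ℝ)| ^ 2 * |(d₁ : ℝ)| := by
            rw [rd₁] at rD
            nlinarith [abs_nonneg (D : ℝ)]
          refine h3.trans ?_
          have h4 : |(b : ℝ)| ≤ |(a₁ : ℝ)| + |(d₁ : ℝ)| + |(b : ℝ)| := by linarith
          have h5 : |(d₁ : ℝ)| ≤ |(a₁ : ℝ)| + |(d₁ : ℝ)| + |(b : ℝ)| := by linarith
          calc |(b : ℝ)| ^ 2 * |(d₁ : ℝ)| ≤ (|(a₁ : ℝ)| + |(d₁ : ℝ)| + |(b : ℝ)|) ^ 2 *
                (|(a₁ : ℝ)| + |(d₁ : ℝ)| + |(b : ℝ)|) := by gcongr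
            _ = (|(a₁ : ℝ)| + |(d₁ : ℝ)| + |(b : ℝ)|) ^ 3 := by ring
            _ ≤ (|(a₁ : ℝ)| + |(d₁ : ℝ)| + |(b : ℝ)|) ^ 5 :=
                pow_le_pow_right₀ (by linarith) (by norm_num))
        (by
          refine rc.trans ?_
          rw [rd₁]
          have h3 : (2 : ℝ) ≤ |(a₁ : ℝ)| + |(d₁ : ℝ)| + |(b : ℝ)| := by linarith
          have h4 : (2 : ℝ) ^ 4 ≤ (|(a₁ : ℝ)| + |(d₁ : ℝ)| + |(b : ℝ)|) ^ 4 :=
            pow_le_pow_left₀ (by norm_num) h3 4
          calc 16 * |(d₁ : ℝ)| + |(b : ℝ)| ≤ 2 ^ 4 * (|(a₁ : ℝ)| + |(d₁ : ℝ)| + |(b : ℝ)|) := by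
                linarith
            _ ≤ (|(a₁ : ℝ)| + |(d₁ : ℝ)| + |(b : ℝ)|) ^ 4 *
                (|(a₁ : ℝ)| + |(d₁ : ℝ)| + |(b : ℝ)|) :=
                mul_le_mul_of_nonneg_right h4 (by linarith)
            _ = _ := by ring)
      calc L ≤ 5 * Real.log (|(a₁ : ℝ)| + |(d₁ : ℝ)| + |(b : ℝ)|) := h2
        _ ≤ 5 * (C * (Nb : ℝ) * E) := by linarith
        _ ≤ 5 * (C * (2 * (Nb : ℝ)) * E) := by
            have : (Nb : ℝ) ≤ 2 * (Nb : ℝ) := by
              have := Nat.cast_nonneg (α := ℝ) Nb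
              linarith
            gcongr
        _ = _ := by ring
  have h3 : (Nd : ℝ) * (2 * (Nb : ℝ)) ≤ 8 * (P : ℝ) := by
    have : (Nd : ℝ) * (Nb : ℝ) ≤ 4 * (P : ℝ) := by exact_mod_cast hprod
    linarith
  have h4 := qfi_mix L (5 * C * E) (Nd : ℝ) (2 * (Nb : ℝ)) (P : ℝ) (by positivity)
    (by positivity) (by positivity) (by positivity) hL1 hL2 h3
  have h5 : E = Real.exp (ε * (20 * Real.log 2)) * Real.exp (ε * R) := by
    rw [hE, ← Real.exp_add]
    congr 1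
    ring
  calc L ≤ 3 * (5 * C * E) * Real.sqrt (P : ℝ) := h4
    _ = _ := by rw [h5]; ring

theorem st_QFI (hQ : ST_QMN) (hR : ST_RMN) : ST_QFI := by
  intro ε hε
  obtain ⟨C, hC, hpair⟩ := qfi_pair hQ hR ε hε
  refine ⟨15 * C * Real.exp (ε * (20 * Real.log 2)), ?_, ?_⟩
  · have h1 : 1 ≤ Real.exp (ε * (20 * Real.log 2)) :=
      Real.one_le_exp (mul_nonneg hε.le (mul_nonneg (by norm_num)
        (Real.log_nonneg (by norm_num))))
    nlinarith
  intro W hΔ hx R hRdef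
  obtain ⟨x, hx⟩ := hx
  obtain ⟨n, hn⟩ := qfi_root W.b₂ W.b₄ W.b₆ x hx
  have h1 : (3 * n ^ 2 + 2 * W.b₂ * n + 8 * W.b₄) ^ 2 *
      ((3 * n + W.b₂) ^ 2 - 4 * (3 * n ^ 2 + 2 * W.b₂ * n + 8 * W.b₄)) = 256 * W.Δ := by
    have h2 := W.b_relation
    rw [WeierstrassCurve.Δ]
    linear_combination (4 * W.b₂ ^ 3 + 27 * (16 * W.b₆ - (n ^ 3 + W.b₂ * n ^ 2 +
      8 * W.b₄ * n)) - 18 * W.b₂ * (8 * W.b₄)) * hn + 64 * W.b₂ ^ 2 * h2
  have h2 : W.c₄ = ((3 * n + W.b₂) ^ 2 - 4 * (3 * n ^ 2 + 2 * W.b₂ * n + 8 * W.b₄)) +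
      (3 * n ^ 2 + 2 * W.b₂ * n + 8 * W.b₄) := by
    rw [WeierstrassCurve.c₄]
    ring
  exact ⟨qfi_core C ε hC hpair _ _ _ _ _ rfl h1 h2 hΔ R hRdef _ (Or.inl rfl),
    qfi_core C ε hC hpair _ _ _ _ _ rfl h1 h2 hΔ R hRdef _ (Or.inr rfl)⟩

end Pool.Helper99.SZ
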